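import Mathlib
import Pool.Agent.H469Z.DaugDefs
import Pool.Agent.H469Z.DaugMain

set_option autoImplicit false

namespace Pool.Agent.Results.MP_5decda_an.Daugavet

open H469Z.Daug

/-- If `X` is an L-embedded Banach space with the Daugavet property and `X**` or `Y` (or just `X`)
has the metric approximation property, then the completed projective tensor product of `X` and `Y`
has the Daugavet property (real or complex scalars, no separability assumption). -/
theorem result (𝕜 : Type*) [RCLike 𝕜]
    (X : Type*) [NormedAddCommGroup X] [NormedSpace 𝕜 X] [CompleteSpace X]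
    (Y : Type*) [NormedAddCommGroup Y] [NormedSpace 𝕜 Y] [CompleteSpace Y] [Nontrivial Y]
    (hL : LEmbedded 𝕜 X) (hD : HasDaugavet 𝕜 X)
    (hM : BidualHasMAP 𝕜 X ∨ HasMAP 𝕜 Y ∨ HasMAP 𝕜 X) :
    HasDaugavet 𝕜 (ProjTensor 𝕜 X Y) :=
  main hL hD (hM.elim (fun h => .inr (.inl h)) (fun h => h.elim (fun h => .inr (.inr h)) .inl))

end Pool.Agent.Results.MP_5decda_an.Daugavet
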